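import Mathlib
import Pool.Agent.Lib.MP_6f9530_pr.Defs
import Pool.Agent.Lib.MP_6f9530_pr.Main
import Pool.Agent.Lib.MP_6f9530_pr.Exist

/-!
# Linear depth constant for exponentially weighted depth-weighted trees
-/

open MeasureTheory Filter Topology
open DWTree

theorem Pool.Agent.Results.MP_6f9530_pr.LinearDepth.result :
    -- for every `c > 1` there is `ν c ∈ (0, 1)`, depending on `c` only, such that `d(T_n) / n → ν c`
    -- almost surely for every weight function with `f (k + 1) / f k → c`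
    (∃ ν : ℝ → ℝ, ∀ c : ℝ, 1 < c → 0 < ν c ∧ ν c < 1 ∧
      ∀ f : ℕ → ℝ, (∀ k, 0 < f k) → Tendsto (fun k => f (k + 1) / f k) atTop (𝓝 c) →
      ∀ (Ω : Type*) [MeasurableSpace Ω] (P : Measure Ω) [IsProbabilityMeasure P]
        (A : (n : ℕ) → Ω → Fin (n + 1)), IsDWT P f A →
      ∀ᵐ ω ∂P, Tendsto (fun n : ℕ => (treeDepth (fun m => A m ω) n : ℝ) / n) atTop (𝓝 (ν c))) ∧
    -- the process exists for every positive weight function
    (∀ f : ℕ → ℝ, (∀ k, 0 < f k) →
      ∃ (Ω : Type) (_ : MeasurableSpace Ω) (P : Measure Ω) (_ : IsProbabilityMeasure P)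
        (A : (n : ℕ) → Ω → Fin (n + 1)), IsDWT P f A) :=
  ⟨main_conv, exists_dwt⟩
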